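import Pool.Agent.H13.EDM.Targets

/-!
# Row NMB: the choice of the scale for backward orbits
-/

set_option autoImplicit false

open Pool.Agent.H13.EDM

namespace Pool.Agent.H73.EDM

theorem pf_NMB (hSEQ : T_SEQ) (hNUM : T_NUM) : T_NMB := by
  intro N a C μ μ' k K _ _ _ _ τ ξ htr hξ hN hμ0 hμμ hEμ h3 h1 c₀ Λ hc₀ hΛ
  obtain ⟨s0, s1, s2, s3, s4, s5, s6⟩ := hSEQ N a k K τ ξ htr hξ
  obtain ⟨dd, hdd⟩ : ∃ dd : ℕ → ℕ → ℝ, dd = fun j m => (dj k N τ ξ j m : ℝ) := ⟨_, rfl⟩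
  obtain ⟨ww, hww⟩ : ∃ ww : ℕ → ℕ → ℝ, ww = fun j m => (wj k N τ ξ j m : ℝ) := ⟨_, rfl⟩
  obtain ⟨E, hE⟩ : ∃ E : ℝ, E = (Module.finrank τ.fieldRange K : ℝ) := ⟨_, rfl⟩
  obtain ⟨A, hA⟩ : ∃ A : ℝ, A = ((N.factorial ^ N : ℕ) : ℝ) := ⟨_, rfl⟩
  have hE1 : 1 ≤ E := by
    rw [hE]
    exact_mod_cast s0
  have hE0 : 0 < E := lt_of_lt_of_le one_pos hE1
  have hA1 : 1 ≤ A := by
    rw [hA]
    exact_mod_cast Nat.one_le_pow _ _ (Nat.factorial_pos N)
  have t2 : ∀ m, dd N m = E ^ m * dd 0 0 := by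
    intro m
    rw [hdd, hE]
    simp only
    rw [s2 m]
    push_cast
    rfl
  have t3 : ∀ j m, 1 ≤ dd j m := by
    intro j m
    rw [hdd]
    beta_reduce
    exact_mod_cast s3 j m
  have t3' : ∀ j m, 0 < dd j m := fun j m => lt_of_lt_of_le one_pos (t3 j m)
  have t4 : ∀ j m, j + 2 ≤ N → dd j m * dd (j + 2) m ≤ 2 * dd (j + 1) m ^ 2 := by
    intro j m h
    rw [hdd]
    beta_reduce
    exact_mod_cast s4 j m h
  have t5 : ∀ j m m', j ≤ N → dd j (m + m') ≤ A * (dd j m * dd j m') := by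
    intro j m m' h
    rw [hdd, hA]
    beta_reduce
    exact_mod_cast s5 j m m' h
  have t6 : ∀ j m, j < N → ww j m ≤ A * (dd j m * dd (j + 1) m) := by
    intro j m h
    rw [hdd, hww, hA]
    beta_reduce
    exact_mod_cast s6 j m h
  have h3' : ∀ m, dd (N - 3) m ≤ C * μ' ^ m := by
    intro m
    rw [hdd]
    exact h3 m
  have h1' : ∀ M : ℕ, ∃ m ≥ M, μ ^ m ≤ C * dd (N - 1) m := by
    intro M
    rw [hdd]
    exact h1 M
  rw [← hE] at hEμ
  have hμ1 : 0 < μ := lt_trans hE0 hEμ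
  set C' : ℝ := |C| + 2 + A with hC'
  have hCC : C ≤ C' := by
    have := le_abs_self C
    linarith
  have hC2 : 2 ≤ C' := by
    have := abs_nonneg C
    linarith
  have hCA : A ≤ C' := by
    have := abs_nonneg C
    linarith
  have hp : ∀ m : ℕ, 0 < E ^ m := fun m => pow_pos hE0 m
  obtain ⟨μ₂, hm1, hm2, m₀, hm⟩ := hNUM N (fun j m => dd (N - j) m / E ^ m)
    (fun j m => ww (N - 1 - j) m / E ^ (m + m)) C' (dd 0 0) (1 / E) (μ / E) (μ' / E) hN
    (by linarith) (t3' 0 0) (by positivity)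
    (fun j _ m => div_pos (t3' _ _) (hp m))
    (fun m => by
      beta_reduce
      rw [Nat.sub_zero, t2, mul_div_cancel_left₀ _ (hp m).ne'])
    (fun j m hj => by
      beta_reduce
      have e1 : N - j = (N - (j + 2)) + 2 := by omega
      have e2 : N - (j + 1) = (N - (j + 2)) + 1 := by omega
      have h := t4 (N - (j + 2)) m (by omega)
      rw [← e1, ← e2] at h
      rw [div_mul_div_comm, div_pow, ← mul_div_assoc, ← sq]
      apply div_le_div_of_nonneg_right _ (sq_nonneg _)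
      calc dd (N - j) m * dd (N - (j + 2)) m = dd (N - (j + 2)) m * dd (N - j) m := mul_comm _ _
        _ ≤ 2 * dd (N - (j + 1)) m ^ 2 := h
        _ ≤ C' * dd (N - (j + 1)) m ^ 2 := mul_le_mul_of_nonneg_right hC2 (sq_nonneg _))
    (fun j _ m m' => by
      beta_reduce
      rw [div_mul_div_comm, ← mul_div_assoc, ← pow_add]
      apply div_le_div_of_nonneg_right _ (hp _).le
      exact (t5 _ m m' (Nat.sub_le _ _)).trans (mul_le_mul_of_nonneg_right hCA
        (mul_pos (t3' _ _) (t3' _ _)).le))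
    (fun j hj m => by
      beta_reduce
      rw [div_mul_div_comm, ← mul_div_assoc, ← pow_add]
      apply div_le_div_of_nonneg_right _ (hp _).le
      have e1 : N - 1 - j = N - (j + 1) := by omega
      have e2 : N - j = N - (j + 1) + 1 := by omega
      rw [e1, e2, mul_comm (dd (N - (j + 1) + 1) m)]
      exact (t6 _ m (by omega)).trans (mul_le_mul_of_nonneg_right hCA
        (mul_pos (t3' _ _) (t3' _ _)).le))
    (fun j _ m => by
      beta_reduce
      rw [one_div, inv_pow, ← mul_div_assoc, ← one_div]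
      apply div_le_div_of_nonneg_right _ (hp _).le
      have h := t3 (N - j) m
      nlinarith)
    (by positivity) (div_lt_div_of_pos_right hμμ hE0) ((one_lt_div hE0).2 hEμ)
    (fun m => by
      beta_reduce
      rw [div_pow, ← mul_div_assoc]
      apply div_le_div_of_nonneg_right _ (hp _).le
      exact (h3' m).trans (mul_le_mul_of_nonneg_right hCC (pow_nonneg hμ0 m)))
    (fun M => by
      obtain ⟨m, hm1, hm2⟩ := h1' M
      refine ⟨m, hm1, ?_⟩
      beta_reduce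
      rw [div_pow, ← mul_div_assoc]
      apply div_le_div_of_nonneg_right _ (hp _).le
      exact hm2.trans (mul_le_mul_of_nonneg_right hCC (t3' _ _).le)) c₀ Λ hc₀ hΛ
  rw [← hE]
  refine ⟨μ₂, (div_lt_iff₀ hE0).1 hm1, hm2, m₀, fun m hmm => ?_⟩
  obtain ⟨i, l₀, ρ, a1, a2, a3, a4, a5, a6, a7, a8⟩ := hm m hmm
  beta_reduce at a5 a7
  refine ⟨i, l₀, ρ, a1, a2, a3, a4, ?_, a6, ?_, a8⟩
  · have e : ∑ j ∈ Finset.range N, (l₀ : ℝ) ^ (N - 1 - j) *
        (ww (N - 1 - j) m / E ^ (m + m)) =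
        (∑ j ∈ Finset.range N, (l₀ : ℝ) ^ (N - 1 - j) * ww (N - 1 - j) m) / E ^ (m + m) := by
      rw [Finset.sum_div]
      refine Finset.sum_congr rfl fun j _ => ?_
      rw [mul_div_assoc]
    rw [e, ← mul_div_assoc, div_mul_eq_mul_div, div_mul_eq_mul_div,
      div_le_div_iff_of_pos_right (hp _)] at a5
    rw [hdd, hww] at a5
    exact a5
  · rw [← mul_div_assoc, le_div_iff₀ (hp _)] at a7
    rw [hdd] at a7
    exact a7

end Pool.Agent.H73.EDM
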